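import Pool.Agent.Helper24.HW.Stmts

/-! Module DOR of the project HW: vertices of the ordinary labels. -/

set_option autoImplicit false

namespace Pool.Agent.Helper79.HW

open Equiv Equiv.Perm Pool.Agent.Helper24.HW Pool.Agent.Helper24.HWPub Pool.Agent.Helper98.Gn

theorem DOR : ST_DOR := by
  intro T _ _ N _ ng ρ cur h g
  classical
  let D : Type := (ZMod N × T) ⊕ ((ZMod N × {t // ρ t = t}) × Bool)
  let σ : Perm D := (der h).σ
  have hσ1 : ∀ (g : ZMod N) (t : T) (e : ρ (ng t) = ng t),
      σ (Sum.inl (g, t)) = Sum.inr ((g, ⟨ng t, e⟩), false) := by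
    intro g t e
    change (if e : ρ (ng t) = ng t then Sum.inr ((g, ⟨ng t, e⟩), false)
      else Sum.inl (g, ρ (ng t)) : D) = _
    rw [dif_pos e]
  have hσ2 : ∀ (g : ZMod N) (t : T), ρ (ng t) ≠ ng t →
      σ (Sum.inl (g, t)) = Sum.inl (g, ρ (ng t)) := by
    intro g t e
    change (if e : ρ (ng t) = ng t then Sum.inr ((g, ⟨ng t, e⟩), false)
      else Sum.inl (g, ρ (ng t)) : D) = _
    rw [dif_neg e]
  have hσ3 : ∀ (g : ZMod N) (s : {t // ρ t = t}),
      σ (Sum.inr ((g, s), false)) = Sum.inl (g, s.1) := fun g s => rfl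
  have hσ4 : ∀ (g : ZMod N) (s : {t // ρ t = t}),
      σ (Sum.inr ((g, s), true)) = Sum.inr ((g - cur s.1, s), true) := fun g s => rfl
  -- the map on classes
  have hwd : ∀ a b : T, SameCycle (ρ * ng) a b →
      SameCycle σ (Sum.inl (g, a)) (Sum.inl (g, b)) := by
    intro a b hab
    refine sc_induct (π := ρ * ng)
      (fun a b => SameCycle σ (Sum.inl (g, a)) (Sum.inl (g, b))) (fun a => SameCycle.refl _ _)
      (fun a b c h1 h2 => h1.trans h2) ?_ hab
    intro z
    by_cases e : ρ (ng z) = ng z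
    · have h1 : SameCycle σ (Sum.inl (g, z)) (σ (Sum.inl (g, z))) := sc_step _ _
      have h2 : SameCycle σ (σ (Sum.inl (g, z))) (σ (σ (Sum.inl (g, z)))) := sc_step _ _
      have h3 := h1.trans h2
      rw [hσ1 g z e, hσ3] at h3
      rw [Perm.mul_apply, e]
      exact h3
    · have h1 : SameCycle σ (Sum.inl (g, z)) (σ (Sum.inl (g, z))) := sc_step _ _
      rw [hσ2 g z e] at h1
      rw [Perm.mul_apply]
      exact h1
  let φ : Quotient (SameCycle.setoid (ρ * ng)) → Quotient (SameCycle.setoid σ) :=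
    Quotient.map' (s₁ := SameCycle.setoid (ρ * ng)) (s₂ := SameCycle.setoid σ)
      (fun t => (Sum.inl (g, t) : D)) (fun a b hab => hwd a b hab)
  have hφ : ∀ t : T, φ (Quotient.mk _ t) = Quotient.mk _ (Sum.inl (g, t) : D) := fun t => rfl
  let f : D → Quotient (SameCycle.setoid (ρ * ng)) := fun z => match z with
    | Sum.inl (_, t) => Quotient.mk _ t
    | Sum.inr ((_, s), _) => Quotient.mk _ s.1
  have hstep : ∀ t : T, (Quotient.mk _ t : Quotient (SameCycle.setoid (ρ * ng))) =
      Quotient.mk _ (ρ (ng t)) := by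
    intro t
    apply Quotient.sound
    exact sc_step (ρ * ng) t
  have hf : ∀ z : D, f z = f (σ z) := by
    rintro (⟨g', t⟩ | ⟨⟨g', s⟩, b⟩)
    · by_cases e : ρ (ng t) = ng t
      · rw [hσ1 g' t e]
        change Quotient.mk _ t = Quotient.mk _ (ng t)
        rw [hstep t, e]
      · rw [hσ2 g' t e]
        exact hstep t
    · cases b
      · rw [hσ3]
      · rw [hσ4]
  have hinj : Function.Injective φ := by
    intro x y
    refine Quotient.inductionOn₂ x y ?_
    intro a b hab
    rw [hφ, hφ] at hab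
    have h1 : SameCycle σ (Sum.inl (g, a)) (Sum.inl (g, b)) := Quotient.exact hab
    exact sc_induct (π := σ) (fun a b => f a = f b) (fun _ => rfl)
      (fun a b c h1 h2 => h1.trans h2) hf h1
  have hrange : {O : Quotient (SameCycle.setoid (der h).σ) |
      ∃ x, (der h).ℓ x = Sum.inl g ∧ Quotient.mk _ x = O} = Set.range φ := by
    ext O
    constructor
    · rintro ⟨x, hx, rfl⟩
      rcases x with ⟨g', t⟩ | ⟨⟨g', s⟩, b⟩
      · have hg : g' = g := Sum.inl.inj hx
        subst hg
        exact ⟨Quotient.mk _ t, rfl⟩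
      · cases b
        · have hg : g' = g := Sum.inl.inj hx
          subst hg
          refine ⟨Quotient.mk _ s.1, ?_⟩
          apply Quotient.sound
          exact (sc_step σ (Sum.inr ((g', s), false))).symm
        · cases hx
    · rintro ⟨q, rfl⟩
      refine Quotient.inductionOn q ?_
      intro t
      exact ⟨(Sum.inl (g, t) : D), rfl, rfl⟩
  unfold LM.pt
  rw [hrange]
  unfold cyc
  rw [← Nat.card_coe_set_eq]
  exact Nat.card_range_of_injective hinj

end Pool.Agent.Helper79.HW
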