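import Pool.Agent.Helper24.HW.Stmts

/-! Module MAIN of the project HW. -/

set_option autoImplicit false

namespace Pool.Agent.Helper79.HW

open Equiv Equiv.Perm Pool.Agent.Helper24.HW Pool.Agent.Helper24.HWPub Pool.Agent.Helper98.Gn

theorem MAIN (h1 : ST_KK) (h2 : ST_SURF) (h3 : ST_NUM) : ST_MAIN := by
  intro S m hm hS
  obtain ⟨k, j, hk, hj, hH, hmk, hpar, hle⟩ := h3 S m hm hS
  have key : ∃ ε : ℤ, Even ε ∧ ε ≤ S.eps + 2 ∧
      ((S.Ori ∧ S.eps = ε) ∨ (¬ S.Ori ∧ (S.eps = ε - 1 ∨ S.eps = ε - 2))) := by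
    cases S with
    | ori g =>
      refine ⟨(Surf.ori g).eps, ?_, by linarith, Or.inl ⟨trivial, rfl⟩⟩
      exact ⟨1 - (g : ℤ), by unfold Surf.eps; ring⟩
    | non h =>
      rcases Int.even_or_odd (Surf.non h).eps with he | ho
      · refine ⟨(Surf.non h).eps + 2, he.add (by decide), le_refl _, Or.inr ⟨fun hf => hf, ?_⟩⟩
        right
        ring
      · refine ⟨(Surf.non h).eps + 1, ho.add_odd (by decide), by linarith,
          Or.inr ⟨fun hf => hf, ?_⟩⟩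
        left
        ring
  obtain ⟨ε, hev, hε, hcase⟩ := key
  obtain ⟨C, hC, M, hcard, hchi, hconn, hne, hpt, hadj⟩ :=
    h1 k j m hk hm hmk hpar hj ε hev (hε.trans hle)
  rw [← hchi] at hcase
  obtain ⟨Φ, hΦ, a, c, hon, hemp, hcol⟩ := h2 C M m hconn hne hadj hpt S hcase
  refine ⟨Φ, hΦ, a, c, hon, hemp, fun q hq => ?_⟩
  rw [hH, ← hcard]
  exact hcol q hq

end Pool.Agent.Helper79.HW
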